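import Pool.Agent.Y120.K.WinZ

/-!
# Windows for the points isogenous to points with integral modular invariants
-/

set_option autoImplicit false

open Pool.Agent.Y120.J
open Pool.Agent.TH21.MS (jj)

namespace Pool.Agent.Y120.K

lemma mo1 {a b c d u : ℂ} (h : a - c * u ≠ 0) : c * ((d * u - b) / (a - c * u)) + d = (a * d - b * c) / (a - c * u) := by
  rw [eq_div_iff h, add_mul, mul_assoc, div_mul_cancel₀ _ h]
  ring

lemma mo2 {a b c d u : ℂ} (h : a - c * u ≠ 0) : a * ((d * u - b) / (a - c * u)) + b = (a * d - b * c) * u / (a - c * u) := by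
  rw [eq_div_iff h, add_mul, mul_assoc, div_mul_cancel₀ _ h]
  ring

lemma mo3 {e u x : ℂ} (h : x ≠ 0) (he : e ≠ 0) : e * u / x / (e / x) = u := by
  rw [div_div_div_cancel_right₀ h, mul_comm, mul_div_assoc, div_self he, mul_one]

section
variable {K : IntermediateField ℚ ℂ} {q k : ℕ}

/-- a linear polynomial -/
noncomputable def lin (K : IntermediateField ℚ ℂ) (q : ℕ) {k : ℕ} (a b : ℤ) (i : Fin k) :
    MvPolynomial (Option (Fin q) ⊕ Fin k × Fin 3) K :=
  MvPolynomial.C (a : K) * MvPolynomial.X (Sum.inr (i, 0)) + MvPolynomial.C (b : K)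

lemma lin_deg (a b : ℤ) (i : Fin k) : (lin K q a b i).totalDegree ≤ 1 := by
  unfold lin
  refine (MvPolynomial.totalDegree_add _ _).trans (max_le ?_ ?_)
  · refine (MvPolynomial.totalDegree_mul _ _).trans ?_
    rw [MvPolynomial.totalDegree_C, zero_add]
    exact dX _
  · rw [MvPolynomial.totalDegree_C]
    exact Nat.zero_le _

lemma lin_eval (a b : ℤ) (i : Fin k) (y : Option (Fin q) ⊕ Fin k × Fin 3 → ℂ) :
    MvPolynomial.aeval y (lin K q a b i) = a * y (Sum.inr (i, 0)) + b := by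
  unfold lin
  rw [map_add, map_mul, MvPolynomial.aeval_C, MvPolynomial.aeval_C, MvPolynomial.aeval_X, map_intCast, map_intCast]

/-- the constants fixed, the other variables free -/
noncomputable def fr (w : Fin q → ℂ) (P : MvPolynomial (Option (Fin q) ⊕ Fin k) K) : MvPolynomial (Fin k) ℂ :=
  MvPolynomial.aeval (Sum.elim (fun o => MvPolynomial.C (wo w o)) MvPolynomial.X) P

lemma fr_eval (w : Fin q → ℂ) (P : MvPolynomial (Option (Fin q) ⊕ Fin k) K) (u : Fin k → ℂ) :
    MvPolynomial.eval u (fr w P) = MvPolynomial.aeval (Sum.elim (wo w) u) P := by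
  have h2 : ((MvPolynomial.aeval u : MvPolynomial (Fin k) ℂ →ₐ[ℂ] ℂ).restrictScalars K).comp
      (MvPolynomial.aeval (Sum.elim (fun o => MvPolynomial.C (wo w o)) MvPolynomial.X) :
        MvPolynomial (Option (Fin q) ⊕ Fin k) K →ₐ[K] MvPolynomial (Fin k) ℂ)
      = MvPolynomial.aeval (Sum.elim (wo w) u) := by
    apply MvPolynomial.algHom_ext
    intro v
    rw [AlgHom.comp_apply, MvPolynomial.aeval_X, MvPolynomial.aeval_X, AlgHom.restrictScalars_apply]
    rcases v with o | v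
    · rw [Sum.elim_inl, Sum.elim_inl, MvPolynomial.aeval_C]
      rfl
    · rw [Sum.elim_inr, Sum.elim_inr, MvPolynomial.aeval_X]
  rw [← h2, AlgHom.comp_apply, AlgHom.restrictScalars_apply]
  rfl

end

/-- windows for isogeny classes -/
theorem winI (hn : ∀ s, T_NRJ s) (q k D δ : ℕ) : ∃ E : ℕ, ∀ N H : ℕ, (H + 2) ^ E ≤ N → ∀ (w : Fin q → ℂ) (s : Bool),
    ∃ S : Finset ℤ, S.card ≤ q + 2 ∧ ∀ n : Fin k → ℤ, Function.Injective n →
    (∀ i, (N : ℤ) ≤ si s * n i ∧ si s * n i ≤ N + H ∧ n i ∉ S) →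
    ∀ v : Fin k → UpperHalfPlane, (∀ i, jj (v i) = n i) →
    ∀ z : Fin k → ℂ, (∀ i, ∃ a b c d : ℚ, a * d - b * c ≠ 0 ∧ z i = ((a : ℂ) * v i + b) / ((c : ℂ) * v i + d)) →
    ∀ K : IntermediateField ℚ ℂ, FiniteDimensional ℚ K → Module.finrank ℚ K ≤ D →
    ∀ P : MvPolynomial (Option (Fin q) ⊕ Fin k) K, P.totalDegree ≤ δ →
    MvPolynomial.aeval (Sum.elim (wo w) z) P = 0 → ∀ u, MvPolynomial.aeval (Sum.elim (wo w) u) P = 0 := by
  classical
  obtain ⟨E, hE⟩ := winZ2 hn q k D (Fintype.card (Option (Fin q)) * (δ * 1) + Fintype.card (Fin k) * (δ * 1))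
  refine ⟨E, fun N H hN w s => ?_⟩
  obtain ⟨S, hS, h⟩ := hE N H hN w s
  refine ⟨S, hS, fun n hn1 hnS v hv z hz K hK hKD P hP hP0 => ?_⟩
  choose g hg using fun i => toM4 (hz i)
  have hdet : ∀ i, ((g i).a : ℂ) * (g i).d - (g i).b * (g i).c ≠ 0 := fun i => by exact_mod_cast (g i).det
  have hden : ∀ i, ((g i).c : ℂ) * (v i : ℂ) + (g i).d ≠ 0 := by
    intro i h0
    have h1 := hg i
    rw [h0, mul_zero] at h1
    have h2 := hdet i
    by_cases hc : ((g i).c : ℂ) = 0
    · rw [hc, zero_mul, zero_add] at h0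
      apply h2
      rw [hc, h0]
      ring
    · apply h2
      have h3 : ((g i).c : ℂ) * (((g i).a : ℂ) * (g i).d - (g i).b * (g i).c) = 0 := by
        linear_combination ((g i).a : ℂ) * (g i).c * h0 + ((g i).c : ℂ) ^ 2 * h1
      exact (mul_eq_zero.1 h3).resolve_left hc
  set P' := clr δ (fun o => (MvPolynomial.X (Sum.inl o) : MvPolynomial (Option (Fin q) ⊕ Fin k × Fin 3) K))
    (fun i => lin K q (g i).a (g i).b i) (fun i => lin K q (g i).c (g i).d i) P with hP'
  have hdeg : P'.totalDegree ≤ Fintype.card (Option (Fin q)) * (δ * 1) + Fintype.card (Fin k) * (δ * 1) :=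
    clr_deg hP (fun a => dX _) (fun b => lin_deg _ _ _) fun b => lin_deg _ _ _
  have hmain := h n hn1 hnS v hv K hK hKD P' hdeg (by
    rw [hP', clr_eval hP _ fun i => by
      rw [lin_eval, Sum.elim_inr]
      exact hden i]
    refine mul_eq_zero_of_right _ ?_
    rw [← hP0]
    congr 2
    funext o
    rcases o with o | i
    · rw [Sum.elim_inl, Sum.elim_inl, MvPolynomial.aeval_X, Sum.elim_inl]
    · rw [Sum.elim_inr, Sum.elim_inr, lin_eval, lin_eval, Sum.elim_inr]
      show ((g i).a * (v i : ℂ) + (g i).b) / ((g i).c * (v i : ℂ) + (g i).d) = z i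
      rw [← hg i, mul_div_assoc, div_self (hden i), mul_one])
  have hkey : ∀ u : Fin k → ℂ, (∀ i, ((g i).a : ℂ) - (g i).c * u i ≠ 0) →
      MvPolynomial.aeval (Sum.elim (wo w) u) P = 0 := by
    intro u hu
    have h1 := hmain fun p => if p.2 = 0 then ((g p.1).d * u p.1 - (g p.1).b) / ((g p.1).a - (g p.1).c * u p.1) else 0
    have hM : ∀ i, ((g i).c : ℂ) * (((g i).d * u i - (g i).b) / ((g i).a - (g i).c * u i)) + (g i).d =
        (((g i).a : ℂ) * (g i).d - (g i).b * (g i).c) / ((g i).a - (g i).c * u i) := fun i => mo1 (hu i)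
    have hN' : ∀ i, ((g i).a : ℂ) * (((g i).d * u i - (g i).b) / ((g i).a - (g i).c * u i)) + (g i).b =
        (((g i).a : ℂ) * (g i).d - (g i).b * (g i).c) * u i / ((g i).a - (g i).c * u i) := fun i => mo2 (hu i)
    have hM0 : ∀ i, ((g i).c : ℂ) * (((g i).d * u i - (g i).b) / ((g i).a - (g i).c * u i)) + (g i).d ≠ 0 := by
      intro i
      rw [hM i]
      exact div_ne_zero (hdet i) (hu i)
    rw [hP', clr_eval hP _ fun i => by
      rw [lin_eval, Sum.elim_inr]
      simp only [if_true]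
      exact hM0 i] at h1
    have h2 := (mul_eq_zero.1 h1).resolve_left (Finset.prod_ne_zero_iff.2 fun i _ => pow_ne_zero _ (by
      rw [lin_eval, Sum.elim_inr]
      simp only [if_true]
      exact hM0 i))
    rw [← h2]
    congr 2
    funext o
    rcases o with o | i
    · rw [Sum.elim_inl, Sum.elim_inl, MvPolynomial.aeval_X, Sum.elim_inl]
    · rw [Sum.elim_inr, Sum.elim_inr, lin_eval, lin_eval, Sum.elim_inr]
      simp only [if_true]
      rw [hM i, hN' i]
      exact (mo3 (hu i) (hdet i)).symm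
  have hfr : fr w P * ∏ i, (MvPolynomial.C ((g i).a : ℂ) - MvPolynomial.C ((g i).c : ℂ) * MvPolynomial.X i) = 0 := by
    refine MvPolynomial.funext fun u => ?_
    rw [map_mul, map_zero, map_prod, fr_eval]
    by_cases hu : ∀ i, ((g i).a : ℂ) - (g i).c * u i ≠ 0
    · rw [hkey u hu, zero_mul]
    · push Not at hu
      obtain ⟨i, hi⟩ := hu
      refine mul_eq_zero_of_right _ (Finset.prod_eq_zero (Finset.mem_univ i) ?_)
      rw [map_sub, map_mul, MvPolynomial.eval_C, MvPolynomial.eval_C, MvPolynomial.eval_X]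
      exact hi
  have hfr0 : fr w P = 0 := by
    refine (mul_eq_zero.1 hfr).resolve_right (Finset.prod_ne_zero_iff.2 fun i _ hi => ?_)
    have h0 := congrArg (MvPolynomial.eval fun _ => (0 : ℂ)) hi
    have h1 := congrArg (MvPolynomial.eval fun _ => (1 : ℂ)) hi
    rw [map_sub, map_mul, MvPolynomial.eval_C, MvPolynomial.eval_C, MvPolynomial.eval_X, map_zero, mul_zero, sub_zero] at h0
    rw [map_sub, map_mul, MvPolynomial.eval_C, MvPolynomial.eval_C, MvPolynomial.eval_X, map_zero, mul_one, h0, zero_sub,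
      neg_eq_zero] at h1
    apply hdet i
    rw [h0, h1]
    ring
  intro u
  rw [← fr_eval, hfr0, map_zero]

end Pool.Agent.Y120.K
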