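import Pool.Agent.Y120.K.Defs

/-!
# A relation on the curve vanishes identically: assembly
-/

set_option autoImplicit false

open Pool.Agent.Y120.J
open Pool.Agent.TH21.MS (jj)

namespace Pool.Agent.Y120.K

lemma ry_im (s : Bool) (y : ℝ) : (ry s y).im = y := by
  unfold ry
  simp

lemma Ys_pos (s : Bool) : 0 < Ys s := by
  unfold Ys
  split_ifs <;> positivity

lemma am_im (s : Bool) : (am s).im = 0 := by
  unfold am
  split_ifs <;> simp

theorem van_of {s : Bool} (hr : T_RAY s) (hc : T_CUR s) (hsp : T_SP s) (hnp : T_NP s) (halg : T_ALG) : T_VAN s := by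
  intro g hg Q hQ x hx v
  have hpos : ∀ x ∈ Set.Ioo 0 (z1 s g), 0 < (cur s g x 1).im := by
    intro x hx
    show 0 < (ry s (Yx s g x)).im
    rw [ry_im]
    exact (Ys_pos s).trans ((hc g hg).1 x hx).1
  have key := halg (Set.Ioo 0 (z1 s g)) (An s g) (fun x => ea s g x) (fun x => cur s g x) (am s) (fun x => ?_)
    (fun Q hQ x => ?_) Q (fun x => hQ x x.2) ⟨x, hx⟩ v
  · exact key
  · refine ⟨fun h => ?_, fun h => ?_, ?_⟩
    · have h1 := hpos x x.2
      rw [h] at h1
      simp at h1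
    · have h1 := hpos x x.2
      rw [h, am_im] at h1
      exact lt_irrefl _ h1
    · show deriv jj (ry s (Yx s g x)) ≠ 0
      exact hr.2.2.2.1 _ ((hc g hg).1 x x.2).1
  · have hQ' : ∀ x ∈ Set.Ioo 0 (z1 s g), MvPolynomial.eval₂ (ea s g x : An s g →+* ℂ) (cur s g x) Q = 0 :=
      fun x hx => hQ ⟨x, hx⟩
    have h1 := hsp g hg Q hQ' x x.2
    exact ⟨hnp g hg Q hQ' x x.2, h1.1, h1.2⟩

end Pool.Agent.Y120.K
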