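import Pool.Agent.Y120.J.Asm
import Pool.Agent.Y120.J.Defs3
import Pool.Agent.Y37.GF.Cl
import Pool.Agent.Y118.UL.Cor

/-!
# Windows of integral modular invariants, all distinct integers: definitions and statements

For the sign `s` let `ry s y = xs s + i y` be the vertical half-line `Re z = 0` or `Re z = 1/2` above the elliptic point
`ry s (Ys s)` (`i` or `e^(π i / 3)`); on it `j = si s * hh s`, `hh s` increases from `Js s` (`1728` or `0`) to infinity. For a shift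
`g` and `0 < x < z1 s g` the point `ry s (Yx s g x)` is the point where `j = si s * (1 / x - g)`.
-/

set_option autoImplicit false

open PowerSeries Pool.Agent.Y113 Pool.Agent.Y120.GH Pool.Agent.Y120.J
open Pool.Agent.TH21.MS (jj)
open Filter Topology

namespace Pool.Agent.Y120.K

/-- real part of the half-line -/
noncomputable def xs (s : Bool) : ℝ := if s then 0 else 1 / 2

/-- imaginary part of the elliptic point -/
noncomputable def Ys (s : Bool) : ℝ := if s then 1 else √3 / 2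

/-- the half-line -/
noncomputable def ry (s : Bool) (y : ℝ) : ℂ := (xs s : ℂ) + (y : ℂ) * Complex.I

/-- the absolute value of `j` on the half-line -/
noncomputable def hh (s : Bool) (y : ℝ) : ℝ := ((si s : ℤ) : ℝ) * (jj (ry s y)).re

/-- its value at the elliptic point -/
noncomputable def Js (s : Bool) : ℝ := if s then 1728 else 0

/-- `j` on the half-line -/
def T_RAY (s : Bool) : Prop := (∀ y : ℝ, Ys s ≤ y → jj (ry s y) = ((si s : ℤ) : ℂ) * ((hh s y : ℝ) : ℂ)) ∧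
  hh s (Ys s) = Js s ∧ StrictMonoOn (hh s) (Set.Ici (Ys s)) ∧ (∀ y : ℝ, Ys s < y → deriv jj (ry s y) ≠ 0) ∧
  Tendsto (hh s) atTop atTop

/-- the end of the interval -/
noncomputable def z1 (s : Bool) (g : ℕ) : ℝ := 1 / ((g : ℝ) + Js s)

/-- the inverse function -/
noncomputable def Yx (s : Bool) (g : ℕ) (x : ℝ) : ℝ := Function.invFunOn (hh s) (Set.Ioi (Ys s)) (1 / x - g)

/-- the curve `(log (1 / x), z, j'(z), j''(z))` with `j(z) = si s * (1 / x - g)` -/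
noncomputable def cur (s : Bool) (g : ℕ) (x : ℝ) : Fin 4 → ℂ :=
  ![((Real.log (1 / x) : ℝ) : ℂ), ry s (Yx s g x), deriv jj (ry s (Yx s g x)), deriv (deriv jj) (ry s (Yx s g x))]

/-- the inverse function is analytic -/
def T_CUR (s : Bool) : Prop := ∀ g : ℕ, 1 ≤ g →
  (∀ x ∈ Set.Ioo 0 (z1 s g), Ys s < Yx s g x ∧ hh s (Yx s g x) = 1 / x - g ∧ AnalyticAt ℝ (Yx s g) x) ∧
  ∀ y : ℝ, Ys s < y → 1 / ((g : ℝ) + hh s y) ∈ Set.Ioo 0 (z1 s g) ∧ Yx s g (1 / ((g : ℝ) + hh s y)) = y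

/-- the functions which are analytic on the closed interval `[0, z1 s g]` -/
def An (s : Bool) (g : ℕ) : Subalgebra ℂ (ℝ → ℂ) where
  carrier := {c | ∀ x ∈ Set.Icc 0 (z1 s g), AnalyticAt ℝ c x}
  mul_mem' := fun ha hb x hx => (ha x hx).mul (hb x hx)
  add_mem' := fun ha hb x hx => (ha x hx).add (hb x hx)
  algebraMap_mem' := fun _ _ _ => analyticAt_const

/-- evaluation at `x` -/
noncomputable def ea (s : Bool) (g : ℕ) (x : ℝ) : An s g →ₐ[ℂ] ℂ :=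
  (Pi.evalAlgHom ℂ (fun _ : ℝ => ℂ) x).comp (An s g).val

/-- the translation by `c` (the monodromy at `x = 0`) -/
noncomputable def nt (c : ℂ) (v : Fin 4 → ℂ) : Fin 4 → ℂ := ![v 0 - tpi * c, v 1 + c, v 2, v 3]

/-- the substitution `z ↦ a - 1 / z`, `j' ↦ z^2 j'`, `j'' ↦ z^4 j'' + 2 z^3 j'` -/
noncomputable def mo (a : ℂ) (v : Fin 4 → ℂ) : Fin 4 → ℂ :=
  ![v 0, a - 1 / v 1, v 1 ^ 2 * v 2, v 1 ^ 4 * v 3 + 2 * v 1 ^ 3 * v 2]

/-- the inverse substitution -/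
noncomputable def mo' (a : ℂ) (v : Fin 4 → ℂ) : Fin 4 → ℂ :=
  ![v 0, 1 / (a - v 1), (a - v 1) ^ 2 * v 2, (a - v 1) ^ 4 * v 3 - 2 * (a - v 1) ^ 3 * v 2]

/-- the translation part of the elliptic element `z ↦ a - 1 / z` -/
noncomputable def am (s : Bool) : ℂ := if s then 0 else 1

/-- analytic continuation around the elliptic point (for the coefficients nothing happens) -/
def T_SP (s : Bool) : Prop := ∀ g : ℕ, 1 ≤ g → ∀ Q : MvPolynomial (Fin 4) (An s g),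
  (∀ x ∈ Set.Ioo 0 (z1 s g), MvPolynomial.eval₂ (ea s g x : An s g →+* ℂ) (cur s g x) Q = 0) →
  ∀ x ∈ Set.Ioo 0 (z1 s g), MvPolynomial.eval₂ (ea s g x : An s g →+* ℂ) (mo (am s) (cur s g x)) Q = 0 ∧
    MvPolynomial.eval₂ (ea s g x : An s g →+* ℂ) (mo' (am s) (cur s g x)) Q = 0

/-- the logarithm at `x = 0` is transcendental over the functions which are analytic there -/
def T_NP (s : Bool) : Prop := ∀ g : ℕ, 1 ≤ g → ∀ Q : MvPolynomial (Fin 4) (An s g),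
  (∀ x ∈ Set.Ioo 0 (z1 s g), MvPolynomial.eval₂ (ea s g x : An s g →+* ℂ) (cur s g x) Q = 0) →
  ∀ x ∈ Set.Ioo 0 (z1 s g), ∀ c : ℂ, MvPolynomial.eval₂ (ea s g x : An s g →+* ℂ) (nt c (cur s g x)) Q = 0

/-- the algebraic part: an ideal which is stable under these substitutions is zero -/
def T_ALG : Prop := ∀ (I A : Type) [CommRing A] [Algebra ℂ A] (e : I → A →ₐ[ℂ] ℂ) (cu : I → Fin 4 → ℂ) (a : ℂ),
  (∀ x, cu x 1 ≠ 0 ∧ cu x 1 ≠ a ∧ cu x 2 ≠ 0) →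
  (∀ Q : MvPolynomial (Fin 4) A, (∀ x, MvPolynomial.eval₂ (e x : A →+* ℂ) (cu x) Q = 0) → ∀ x,
    (∀ c : ℂ, MvPolynomial.eval₂ (e x : A →+* ℂ) (nt c (cu x)) Q = 0) ∧
    MvPolynomial.eval₂ (e x : A →+* ℂ) (mo a (cu x)) Q = 0 ∧
    MvPolynomial.eval₂ (e x : A →+* ℂ) (mo' a (cu x)) Q = 0) →
  ∀ Q : MvPolynomial (Fin 4) A, (∀ x, MvPolynomial.eval₂ (e x : A →+* ℂ) (cu x) Q = 0) →
    ∀ x v, MvPolynomial.eval₂ (e x : A →+* ℂ) v Q = 0

/-- a relation on the curve vanishes identically -/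
def T_VAN (s : Bool) : Prop := ∀ g : ℕ, 1 ≤ g → ∀ Q : MvPolynomial (Fin 4) (An s g),
  (∀ x ∈ Set.Ioo 0 (z1 s g), MvPolynomial.eval₂ (ea s g x : An s g →+* ℂ) (cur s g x) Q = 0) →
  ∀ x ∈ Set.Ioo 0 (z1 s g), ∀ v, MvPolynomial.eval₂ (ea s g x : An s g →+* ℂ) v Q = 0

/-! ### the four G-functions at the shift `g` -/

/-- `F`, `θF`, `- (G - F log (1 - g x))`, `- (θG + F - θF log (1 - g x))` at `± x / (1 - g x)` -/
noncomputable def fJ (s : Bool) (g : ℕ) : Fin 4 → ℚ⟦X⟧ :=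
  ![sf g (hS s 0), sf g (hS s 2), -(sf g (hS s 1) - sf g (hS s 0) * lg g), -(sf g (hS s 3) - sf g (hS s 2) * lg g)]

/-- `j` at the point -/
noncomputable def Jx (s : Bool) (g : ℕ) (x : ℝ) : ℂ := ((si s : ℤ) : ℂ) * ((1 / x - g : ℝ) : ℂ)

/-- the value of `F` from `j' = - 2 π i j F^2` -/
noncomputable def Fv (s : Bool) (g : ℕ) (x : ℝ) : ℝ := √ ((-(cur s g x 2) / (tpi * Jx s g x)).re)

/-- the value of `θF` from `j'' = (2 π i)^2 j (F^4 - 2 F^3 θF)` -/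
noncomputable def F1v (s : Bool) (g : ℕ) (x : ℝ) : ℝ :=
  (Fv s g x ^ 4 - (cur s g x 3 / (tpi ^ 2 * Jx s g x)).re) / (2 * Fv s g x ^ 3)

/-- the value of `G - F log (1 - g x)` -/
noncomputable def Gv (s : Bool) (g : ℕ) (x : ℝ) : ℝ := (Real.log (1 / x) - 2 * Real.pi * Yx s g x) * Fv s g x

/-- the four functions on `(0, z1 s g)` -/
noncomputable def uu (s : Bool) (g : ℕ) (x : ℝ) : Fin 4 → ℝ :=
  ![Fv s g x, F1v s g x, -Gv s g x, -((1 + F1v s g x * Gv s g x) / Fv s g x)]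

/-- the four functions, extended to `0` -/
noncomputable def ut (s : Bool) (g : ℕ) (x : ℝ) : Fin 4 → ℝ :=
  if 0 < x then uu s g x else fun i => Pool.Agent.Y37.GF.E (fJ s g i) x

/-- properties of the four functions -/
def T_U (s : Bool) : Prop := ∀ g : ℕ, 1 ≤ g →
  (∀ x ∈ Set.Ico 0 (z1 s g), ∀ i, AnalyticAt ℝ (fun x => ut s g x i) x) ∧
  (∀ᶠ x in 𝓝 (0 : ℝ), ∀ i, ut s g x i = Pool.Agent.Y37.GF.E (fJ s g i) x) ∧
  ∀ x ∈ Set.Ioo 0 (z1 s g), 0 < ut s g x 0 ∧ Jx s g x ≠ 0 ∧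
    cur s g x 2 = -tpi * Jx s g x * (ut s g x 0 : ℂ) ^ 2 ∧
    cur s g x 3 = tpi ^ 2 * Jx s g x * ((ut s g x 0 : ℂ) ^ 4 - 2 * (ut s g x 0 : ℂ) ^ 3 * (ut s g x 1 : ℂ)) ∧
    (ut s g x 2 : ℂ) = -(cur s g x 0 + tpi * (cur s g x 1 - (xs s : ℂ))) * (ut s g x 0 : ℂ) ∧
    ut s g x 0 * ut s g x 3 - ut s g x 1 * ut s g x 2 = -1

/-- one shift, with coefficients analytic on the closed interval -/
def T_SB (s : Bool) : Prop := ∀ g : ℕ, 1 ≤ g → ∀ (Δ : ℕ) (c : Pool.Agent.Y113.Ex Δ → ℝ → ℝ),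
  (∀ e, ∀ x ∈ Set.Icc 0 (z1 s g), AnalyticAt ℝ (c e) x) →
  (∀ᶠ x in 𝓝[>] (0 : ℝ), ∑ e, c e x * Pool.Agent.Y37.GF.mv (ut s g x) e = 0) →
  ∀ x ∈ Set.Ioo 0 (z1 s g), ∀ e, c e x = 0

/-- the monomials -/
noncomputable def monJ (s : Bool) {Δ : ℕ} (g : ℕ) (e : Pool.Agent.Y113.Ex Δ) : ℚ⟦X⟧ := ∏ i, fJ s g i ^ (e.1 i : ℕ)

/-- the products over distinct shifts are linearly independent -/
def T_LIJ (s : Bool) : Prop := ∀ (k Δ : ℕ) (g : Fin k → ℕ), Function.Injective g → (∀ l, 1 ≤ g l) →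
  LinearIndependent (Polynomial ℚ) (fun b : Fin k → Pool.Agent.Y113.Ex Δ => ∏ l, monJ s (g l) (b l))

/-! ### G-systems -/

/-- the base family -/
noncomputable def baseJ (s : Bool) (g : ℕ) : Fin 5 → ℚ⟦X⟧ := ![1, fJ s g 0, fJ s g 1, fJ s g 2, fJ s g 3]

/-- the base family is a G-system, uniformly in the shift -/
def T_BASEJ (s : Bool) : Prop := ∃ (q E c : ℕ) (Tg : ℕ → Polynomial ℤ),
  (∀ g : ℕ, GSys q (((g : ℝ) + 2) ^ E) (Tg g) (baseJ s g)) ∧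
  ∀ g t : ℕ, g + c < t → Polynomial.aeval (1 / (t : ℝ)) (Tg g) ≠ 0

/-- the monomials form a G-system, uniformly in the shift -/
def T_MONJ (s : Bool) : Prop := ∀ Δ : ℕ, ∃ (q E c : ℕ) (Tg : ℕ → Polynomial ℤ),
  (∀ g : ℕ, GSys q (((g : ℝ) + 2) ^ E) (Tg g) (fun e : Pool.Agent.Y113.Ex Δ => monJ s g e)) ∧
  ∀ g t : ℕ, g + c < t → Polynomial.aeval (1 / (t : ℝ)) (Tg g) ≠ 0

/-- the values `F`, `θF`, `- (G - F log (1 - g / t))` at `1 / t` -/
noncomputable def vJ (s : Bool) (t g : ℕ) (i : Fin 3) : ℂ := ((ev (t : ℝ) (fJ s g i.castSucc) : ℝ) : ℂ)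

/-- the values for distinct shifts satisfy no relation of bounded degree -/
def T_NRJ (s : Bool) : Prop := Pool.Agent.Y118.UL.NoRel (vJ s)

end Pool.Agent.Y120.K
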