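import Pool.Agent.Y120.K.WinI
import Pool.Agent.Y120.K.Van
import Pool.Agent.Y664.K.Ray
import Pool.Agent.Y170.K.Cur
import Pool.Agent.Y25.K.Sp
import Pool.Agent.Y929.K.Nrj
import Pool.Agent.Y239.K.NP
import Pool.Agent.Y239.K.U
import Pool.Agent.Y259.K.SB
import Pool.Agent.Y167.K.Lij
import Pool.Agent.Y340.K.Gu
import Pool.Agent.Y317.K.Alg
import Pool.Agent.Y606.K.Base
import Pool.Agent.Y109.K.Mon
import Pool.Agent.Y120.J.All

/-!
# Windows of integral modular invariants: assembly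
-/

set_option autoImplicit false

open Pool.Agent.Y120.J

namespace Pool.Agent.Y120.K

theorem hray (s : Bool) : T_RAY s := Pool.Agent.Y664.K.ray s

theorem hcur (s : Bool) : T_CUR s := Pool.Agent.Y170.K.t_cur s (hray s)

theorem hu (s : Bool) : T_U s := Pool.Agent.Y239.K.UU.t_u s (hray s) (hcur s) hanc hsd hode

theorem hsp (s : Bool) : T_SP s := Pool.Agent.Y25.K.t_sp s (hray s) (hcur s)

theorem hnp (s : Bool) : T_NP s := Pool.Agent.Y239.K.NP.t_np s (hu s)

theorem hvan (s : Bool) : T_VAN s := van_of (hray s) (hcur s) (hsp s) (hnp s) Pool.Agent.Y317.K.t_alg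

theorem hsb (s : Bool) : T_SB s := Pool.Agent.Y259.K.t_sb s (hcur s) (hu s) (hvan s)

theorem hlij (s : Bool) : T_LIJ s := Pool.Agent.Y167.K.t_lij s (hu s) (hsb s)

theorem hbase (s : Bool) : T_BASEJ s := Pool.Agent.Y606.K.t_basej s Pool.Agent.Y340.K.t_gu hode hsd

theorem hmon (s : Bool) : T_MONJ s := Pool.Agent.Y109.K.t_monj s (hbase s) hode

/-- no relations of bounded degree -/
theorem hnr (s : Bool) : T_NRJ s := Pool.Agent.Y929.K.t_nrj s (hmon s) (hlij s)

end Pool.Agent.Y120.K
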