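import Pool.Agent.Y120.K.Defs
import Pool.Agent.Y118.UL.Rel
import Pool.Agent.Y120.J.Core2
import Pool.Agent.Y120.J.All

/-!
# Windows for free coordinates, clearing denominators
-/

set_option autoImplicit false

open Pool.Agent.Y118.UL

namespace Pool.Agent.Y120.K

lemma irr_univ {ι : Type} : Irr (Set.univ : Set (ι → ℂ)) := by
  intro P Q h
  have h1 : P * Q = 0 := MvPolynomial.funext fun y => by
    rw [map_mul, map_zero]
    exact h y (Set.mem_univ _)
  rcases mul_eq_zero.1 h1 with h | h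
  · left
    intro y _
    rw [h, map_zero]
  · right
    intro y _
    rw [h, map_zero]

/-- the windows theorem for free coordinates -/
theorem absFree {ε υ₀ υ₁ : Type} [Fintype ε] [Fintype υ₀] [Fintype υ₁] {val : ℕ → ℕ → ε → ℂ} (hval : NoRel val)
    (w₀ : υ₀ → ℂ) (T : Finset υ₀) (hT : ∀ j, IsAlgebraic (Algebra.adjoin ℚ (w₀ '' (T : Set υ₀))) (w₀ j)) (k D d : ℕ) :
    ∃ E : ℕ, ∀ H t : ℕ, (H + 2) ^ E ≤ t → ∀ w₁ : υ₁ → ℂ, ∃ S : Finset ℕ, S.card ≤ T.card + Fintype.card υ₁ ∧
      ∀ g : Fin k → ℕ, Function.Injective g → (∀ i, 1 ≤ g i ∧ g i ≤ H ∧ g i ∉ S) →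
      ∀ K : IntermediateField ℚ ℂ, FiniteDimensional ℚ K → Module.finrank ℚ K ≤ D →
      ∀ P : MvPolynomial ((υ₀ ⊕ υ₁) ⊕ Fin k × ε) K, P.totalDegree ≤ d →
      MvPolynomial.aeval (Sum.elim (Sum.elim w₀ w₁) fun a : Fin k × ε => val t (g a.1) a.2) P = 0 →
      ∀ y, MvPolynomial.aeval (Sum.elim (Sum.elim w₀ w₁) y) P = 0 := by
  classical
  obtain ⟨E, hE⟩ := absWin (υ₁ := υ₁) val (id : ε → ε) (fun t g => 1 / (((t - 1 * g : ℕ) : ℚ)))
    (fun s => Polynomial.X - Polynomial.C (MvPolynomial.X s : MvPolynomial ε (Polynomial ℚ)))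
    (fun s => Polynomial.X_sub_C_ne_zero _) hval (small_x 1) w₀ T hT k D d
  refine ⟨E, fun H t ht w₁ => ?_⟩
  obtain ⟨S, hS, h⟩ := hE H t ht w₁
  refine ⟨S, hS, fun g hg hgS K hK hKD P hP hP0 y => ?_⟩
  refine h g hg hgS Set.univ irr_univ (Set.mem_univ _) (fun y _ j s => ?_) K hK hKD P hP hP0 y (Set.mem_univ _)
  rw [Polynomial.eval₂_sub, Polynomial.eval₂_X, Polynomial.eval₂_C]
  unfold sp
  rw [MvPolynomial.eval₂Hom_X']
  exact sub_self _

section
variable {α β ρ K : Type} [Fintype α] [Fintype β] [Field K]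

/-- substituting fractions and clearing denominators -/
noncomputable def clr (δ : ℕ) (W : α → MvPolynomial ρ K) (N M : β → MvPolynomial ρ K) (P : MvPolynomial (α ⊕ β) K) :
    MvPolynomial ρ K :=
  ∑ m ∈ P.support, MvPolynomial.C (P.coeff m) * ((∏ a, W a ^ m (Sum.inl a)) *
    ∏ b, (N b ^ m (Sum.inr b) * M b ^ (δ - m (Sum.inr b))))

lemma exp_le {ι : Type} {P : MvPolynomial ι K} {δ : ℕ} (hP : P.totalDegree ≤ δ) {m : ι →₀ ℕ} (hm : m ∈ P.support) (i : ι) :
    m i ≤ δ := by
  refine le_trans ?_ ((MvPolynomial.le_totalDegree hm).trans hP)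
  by_cases h : i ∈ m.support
  · exact Finset.single_le_sum (f := fun i => m i) (fun _ _ => Nat.zero_le _) h
  · rw [Finsupp.notMem_support_iff.1 h]
    exact Nat.zero_le _

lemma clr_eval [Algebra K ℂ] {δ : ℕ} {W : α → MvPolynomial ρ K} {N M : β → MvPolynomial ρ K} {P : MvPolynomial (α ⊕ β) K}
    (hP : P.totalDegree ≤ δ) (y : ρ → ℂ) (hM : ∀ b, MvPolynomial.aeval y (M b) ≠ 0) :
    MvPolynomial.aeval y (clr δ W N M P) = (∏ b, MvPolynomial.aeval y (M b) ^ δ) *
      MvPolynomial.aeval (Sum.elim (fun a => MvPolynomial.aeval y (W a)) fun b => MvPolynomial.aeval y (N b) /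
        MvPolynomial.aeval y (M b)) P := by
  unfold clr
  rw [map_sum, MvPolynomial.aeval_def (p := P), MvPolynomial.eval₂_eq', Finset.mul_sum]
  refine Finset.sum_congr rfl fun m hm => ?_
  rw [map_mul, map_mul, map_prod, map_prod, MvPolynomial.aeval_C, Fintype.prod_sum_type]
  simp only [map_mul, map_pow, Sum.elim_inl, Sum.elim_inr]
  have h1 : ∏ b, (MvPolynomial.aeval y (N b) ^ m (Sum.inr b) * MvPolynomial.aeval y (M b) ^ (δ - m (Sum.inr b))) =
      (∏ b, MvPolynomial.aeval y (M b) ^ δ) * ∏ b, (MvPolynomial.aeval y (N b) / MvPolynomial.aeval y (M b)) ^ m (Sum.inr b) := by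
    rw [← Finset.prod_mul_distrib]
    refine Finset.prod_congr rfl fun b _ => ?_
    have h2 := exp_le hP hm (Sum.inr b)
    have h3 : MvPolynomial.aeval y (M b) ^ δ = MvPolynomial.aeval y (M b) ^ (δ - m (Sum.inr b)) *
        MvPolynomial.aeval y (M b) ^ m (Sum.inr b) := by
      rw [← pow_add, Nat.sub_add_cancel h2]
    rw [h3, div_pow]
    have h4 := pow_ne_zero (m (Sum.inr b)) (hM b)
    field_simp
  rw [h1]
  ring

lemma clr_deg {δ e : ℕ} {W : α → MvPolynomial ρ K} {N M : β → MvPolynomial ρ K} {P : MvPolynomial (α ⊕ β) K}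
    (hP : P.totalDegree ≤ δ) (hW : ∀ a, (W a).totalDegree ≤ e) (hN : ∀ b, (N b).totalDegree ≤ e)
    (hM : ∀ b, (M b).totalDegree ≤ e) :
    (clr δ W N M P).totalDegree ≤ Fintype.card α * (δ * e) + Fintype.card β * (δ * e) := by
  unfold clr
  refine MvPolynomial.totalDegree_finsetSum_le fun m hm => ?_
  refine (MvPolynomial.totalDegree_mul _ _).trans ?_
  rw [MvPolynomial.totalDegree_C, zero_add]
  refine (MvPolynomial.totalDegree_mul _ _).trans (Nat.add_le_add ?_ ?_)
  · refine (MvPolynomial.totalDegree_finsetProd _ _).trans ?_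
    rw [← smul_eq_mul, ← Finset.card_univ, ← Finset.sum_const]
    refine Finset.sum_le_sum fun a _ => (MvPolynomial.totalDegree_pow _ _).trans ?_
    exact Nat.mul_le_mul (exp_le hP hm _) (hW a)
  · refine (MvPolynomial.totalDegree_finsetProd _ _).trans ?_
    rw [← smul_eq_mul, ← Finset.card_univ, ← Finset.sum_const]
    refine Finset.sum_le_sum fun b _ => (MvPolynomial.totalDegree_mul _ _).trans ?_
    have h1 := (MvPolynomial.totalDegree_pow (N b) (m (Sum.inr b))).trans (Nat.mul_le_mul_left _ (hN b))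
    have h2 := (MvPolynomial.totalDegree_pow (M b) (δ - m (Sum.inr b))).trans (Nat.mul_le_mul_left _ (hM b))
    have h3 := exp_le hP hm (Sum.inr b)
    have h4 : m (Sum.inr b) * e + (δ - m (Sum.inr b)) * e = δ * e := by
      rw [← add_mul, Nat.add_sub_cancel' h3]
    omega

/-- integer polynomials -/
lemma aeval_int [Algebra K ℂ] {ι : Type} (p : MvPolynomial ι ℤ) (Z : ι → MvPolynomial ρ K) (y : ρ → ℂ) :
    MvPolynomial.aeval y (MvPolynomial.aeval Z (MvPolynomial.map (Int.castRingHom K) p)) =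
      MvPolynomial.eval₂ (Int.castRingHom ℂ) (fun i => MvPolynomial.aeval y (Z i)) p := by
  induction p using MvPolynomial.induction_on with
  | C a =>
    rw [MvPolynomial.map_C, MvPolynomial.aeval_C, MvPolynomial.eval₂_C, MvPolynomial.algebraMap_eq, MvPolynomial.aeval_C]
    simp
  | add p q hp hq => rw [map_add, map_add, map_add, hp, hq, MvPolynomial.eval₂_add]
  | mul_X p i hp => rw [map_mul, map_mul, map_mul, hp, MvPolynomial.map_X, MvPolynomial.aeval_X, MvPolynomial.eval₂_mul,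
      MvPolynomial.eval₂_X]

lemma aeval_int_deg {ι : Type} {p : MvPolynomial ι ℤ} {e D : ℕ} (hp : p.totalDegree ≤ e) {Z : ι → MvPolynomial ρ K}
    (hZ : ∀ i, (Z i).totalDegree ≤ D) :
    (MvPolynomial.aeval Z (MvPolynomial.map (Int.castRingHom K) p)).totalDegree ≤ e * D := by
  rw [MvPolynomial.aeval_def, MvPolynomial.eval₂_eq]
  refine MvPolynomial.totalDegree_finsetSum_le fun s hs => ?_
  refine (MvPolynomial.totalDegree_mul _ _).trans ?_
  rw [MvPolynomial.algebraMap_eq, MvPolynomial.totalDegree_C, zero_add]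
  refine (MvPolynomial.totalDegree_finsetProd _ _).trans ?_
  refine (Finset.sum_le_sum fun i _ => (MvPolynomial.totalDegree_pow _ _).trans (Nat.mul_le_mul_left _ (hZ i))).trans ?_
  rw [← Finset.sum_mul]
  refine Nat.mul_le_mul_right _ ?_
  exact (MvPolynomial.le_totalDegree (MvPolynomial.support_map_subset _ _ hs)).trans hp

end

end Pool.Agent.Y120.K
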