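import Pool.Agent.Y120.K.Defs
import Pool.Agent.Y119.HY.GalL

/-!
# Galochkin's condition, uniformly in the shift: statements
-/

set_option autoImplicit false

open PowerSeries Pool.Agent.Y113

namespace Pool.Agent.Y120.K

/-- sizes and denominators, polynomially in the parameter `g` -/
def SDu (f : ℕ → ℚ⟦X⟧) : Prop := ∃ E : ℕ, ∀ g : ℕ,
  (∀ m, |((coeff m (f g) : ℚ) : ℝ)| ≤ (((g : ℝ) + 2) ^ E) ^ (m + 1)) ∧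
  ∀ m, ∃ d : ℕ, 0 < d ∧ (d : ℝ) ≤ (((g : ℝ) + 2) ^ E) ^ (m + 1) ∧ ∀ j ≤ m, ∃ a : ℤ, (d : ℚ) * coeff j (f g) = a

/-- the uniform version of `Pool.Agent.Y119.HZ.gsysL` -/
def T_GU : Prop := ∀ (n q : ℕ) (N : Matrix (Fin n) (Fin n) ℚ) (H W : ℕ → Matrix (Fin n) (Fin n) ℚ⟦X⟧)
  (T₁ : ℕ → Polynomial ℤ) (A : ℕ → Fin n → Fin n → Polynomial ℤ), N ^ n = 0 → (∀ g, H g * W g = 1) →
  (∀ g i j, ps (T₁ g) * (X * d⁄dX ℚ (H g i j) + ∑ k, H g i k * C (N k j)) = ∑ k, ps (A g i k) * H g k j) →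
  (∀ i j, SDu fun g => H g i j) → (∀ i j, SDu fun g => W g i j) →
  (∃ E : ℕ, ∀ g : ℕ, Bd q (((g : ℝ) + 2) ^ E) (T₁ g) ∧ Bd q (((g : ℝ) + 2) ^ E) (Polynomial.X * T₁ g) ∧
    ∀ i j, Bd q (((g : ℝ) + 2) ^ E) (A g i j)) →
  ∃ q' E : ℕ, ∀ g : ℕ, GSys q' (((g : ℝ) + 2) ^ E) (Polynomial.X * T₁ g) (fun p : Fin n × Fin n => H g p.1 p.2)

end Pool.Agent.Y120.K
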