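import Pool.Agent.Y120.K.Clr

/-!
# The numbers `z, j', j''` as dominant rational functions of the free values
-/

set_option autoImplicit false

open PowerSeries Pool.Agent.Y113 Pool.Agent.Y120.GF Pool.Agent.Y120.GH Pool.Agent.Y120.J Pool.Agent.Y120.R
open Pool.Agent.TH21.MS (jj)

namespace Pool.Agent.Y120.K

/-- the period functions in terms of the free values -/
noncomputable def Zo (κ ℓ : ℂ) (v : Fin 3 → ℂ) : Fin 3 → ℂ :=
  ![tpi * v 0 ^ 2, v 0 * (-v 2 - ℓ * v 0) + κ * (tpi * v 0 ^ 2), tpi * (v 0 * v 1)]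

lemma tpi_ne : tpi ≠ 0 := by
  unfold tpi
  simp [Real.pi_ne_zero]

lemma exists_Zo (κ ℓ : ℂ) {Z : Fin 3 → ℂ} (hZ : Z 0 ≠ 0) : ∃ v : Fin 3 → ℂ, Zo κ ℓ v = Z := by
  obtain ⟨r, hr⟩ := IsAlgClosed.exists_pow_nat_eq (Z 0 / tpi) (show 0 < 2 by norm_num)
  have hr0 : r ≠ 0 := by
    intro h
    rw [h] at hr
    have h1 : Z 0 / tpi ≠ 0 := div_ne_zero hZ tpi_ne
    exact h1 (by rw [← hr]; ring)
  have ht := tpi_ne
  have hr' : tpi * r ^ 2 = Z 0 := by
    rw [hr]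
    field_simp
  refine ⟨![r, Z 2 / (tpi * r), -((Z 1 - κ * Z 0) / r) - ℓ * r], ?_⟩
  funext i
  fin_cases i
  · exact hr'
  · show r * (-(-((Z 1 - κ * Z 0) / r) - ℓ * r) - ℓ * r) + κ * (tpi * r ^ 2) = Z 1
    rw [hr']
    field_simp
    ring
  · show tpi * (r * (Z 2 / (tpi * r))) = Z 2
    field_simp

lemma exists_Z {a b c d n : ℤ} (hdet : a * d - b * c = 1) (hn : n ≠ 0) {u : Fin 3 → ℂ} (h1 : u 1 ≠ 0)
    (h0 : (a : ℂ) - c * u 0 ≠ 0) : ∃ Z : Fin 3 → ℂ, Z 0 ≠ 0 ∧ (∀ i, e2 Z (mm c d i) ≠ 0) ∧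
      ∀ i, u i = e2 Z (nn a b c d n i) / e2 Z (mm c d i) := by
  have hnC : (n : ℂ) ≠ 0 := by exact_mod_cast hn
  have hdC : (a : ℂ) * d - b * c = 1 := by exact_mod_cast hdet
  set m : ℂ := (a : ℂ) - c * u 0 with hm
  obtain ⟨Z0, hZ0⟩ : ∃ Z0 : ℂ, Z0 = -(u 1 * m ^ 2) / n := ⟨_, rfl⟩
  have hZ00 : Z0 ≠ 0 := by
    rw [hZ0]
    exact div_ne_zero (neg_ne_zero.2 (mul_ne_zero h1 (pow_ne_zero _ h0))) hnC
  obtain ⟨Z1, hZ1⟩ : ∃ Z1 : ℂ, Z1 = (d * u 0 - b) / m * Z0 := ⟨_, rfl⟩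
  have hU : (c : ℂ) * Z1 + d * Z0 = Z0 / m := by
    rw [hZ1]
    field_simp
    rw [hm]
    linear_combination hdC
  have hU0 : Z0 / m ≠ 0 := div_ne_zero hZ00 h0
  obtain ⟨Z2, hZ2⟩ : ∃ Z2 : ℂ, Z2 = (Z0 - (u 2 * Z0 ^ 3 / (n * (Z0 / m) ^ 3) + 2 * c * Z0) / (Z0 / m)) / 2 := ⟨_, rfl⟩
  refine ⟨![Z0, Z1, Z2], hZ00, fun i => ?_, fun i => ?_⟩
  · rw [e2_mm]
    fin_cases i
    · show (c : ℂ) * Z1 + d * Z0 ≠ 0
      rw [hU]
      exact hU0
    · exact hZ00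
    · exact pow_ne_zero 3 hZ00
  · rw [e2_mm, e2_nn]
    fin_cases i
    · show u 0 = ((a : ℂ) * Z1 + b * Z0) / ((c : ℂ) * Z1 + d * Z0)
      rw [hU, eq_div_iff hU0, hZ1]
      field_simp
      rw [hm]
      linear_combination (-(u 0)) * hdC
    · show u 1 = (-n * ((c : ℂ) * Z1 + d * Z0) ^ 2) / Z0
      rw [hU, eq_div_iff hZ00]
      have h2 : u 1 * m ^ 2 = -n * Z0 := by
        rw [hZ0]
        field_simp
      field_simp
      linear_combination h2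
    · show u 2 = (n * ((c : ℂ) * Z1 + d * Z0) ^ 3 * (((c : ℂ) * Z1 + d * Z0) * (Z0 - 2 * Z2) - 2 * c * Z0)) / Z0 ^ 3
      rw [hU, eq_div_iff (pow_ne_zero 3 hZ00)]
      have h2 : (Z0 / m) * (Z0 - 2 * Z2) - 2 * c * Z0 = u 2 * Z0 ^ 3 / (n * (Z0 / m) ^ 3) := by
        rw [hZ2]
        field_simp
        ring
      rw [h2]
      field_simp

/-- a polynomial which vanishes on the points with nonzero `u 1` and `a - c u 0` vanishes -/
lemma dense_zero {k : ℕ} {p : MvPolynomial (Fin k × Fin 3) ℂ} {a c : Fin k → ℤ} (hac : ∀ j, a j ≠ 0 ∨ c j ≠ 0)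
    (h : ∀ u : Fin k × Fin 3 → ℂ, (∀ j, u (j, 1) ≠ 0 ∧ (a j : ℂ) - c j * u (j, 0) ≠ 0) → MvPolynomial.eval u p = 0) :
    p = 0 := by
  classical
  set q : MvPolynomial (Fin k × Fin 3) ℂ := ∏ j, (MvPolynomial.X (j, 1) *
    (MvPolynomial.C (a j : ℂ) - MvPolynomial.C (c j : ℂ) * MvPolynomial.X (j, 0))) with hq
  have hq0 : q ≠ 0 := by
    rw [hq, Finset.prod_ne_zero_iff]
    intro j _
    refine mul_ne_zero (MvPolynomial.X_ne_zero _) ?_
    intro h0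
    have h1 := congrArg (MvPolynomial.eval fun _ => (0 : ℂ)) h0
    have h2 := congrArg (MvPolynomial.eval fun _ => (1 : ℂ)) h0
    simp only [map_sub, map_mul, MvPolynomial.eval_C, MvPolynomial.eval_X, map_zero, mul_zero, sub_zero, mul_one] at h1 h2
    have h3 : a j = 0 := by exact_mod_cast h1
    rw [h3] at h2
    have h4 : c j = 0 := by
      have : (c j : ℂ) = 0 := by linear_combination -h2 + (by push_cast; ring : ((0 : ℤ) : ℂ) - c j + c j = 0)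
      exact_mod_cast this
    rcases hac j with h5 | h5
    · exact h5 h3
    · exact h5 h4
  have hpq : p * q = 0 := by
    refine MvPolynomial.funext fun u => ?_
    rw [map_mul, map_zero]
    by_cases hu : ∀ j, u (j, 1) ≠ 0 ∧ (a j : ℂ) - c j * u (j, 0) ≠ 0
    · rw [h u hu, zero_mul]
    · push Not at hu
      obtain ⟨j, hj⟩ := hu
      refine mul_eq_zero_of_right _ ?_
      rw [hq, map_prod]
      refine Finset.prod_eq_zero (Finset.mem_univ j) ?_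
      simp only [map_sub, map_mul, MvPolynomial.eval_C, MvPolynomial.eval_X]
      by_cases h6 : u (j, 1) = 0
      · rw [h6, zero_mul]
      · rw [hj h6, mul_zero]
  exact (mul_eq_zero.1 hpq).resolve_right hq0

/-- the free values and the period functions -/
lemma pS_eq {s : Bool} {C : ℝ} (hC : 0 ≤ C) (hsz : ∀ i m, |((coeff m (hS s i) : ℚ) : ℝ)| ≤ C ^ (m + 1)) {t g : ℕ}
    (h : (g : ℝ) + C < t) : pS s ((t - g : ℕ) : ℝ) = Zo (if s then 0 else 1 / 2) ((Real.log t : ℝ) : ℂ) (vJ s t g) := by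
  have hg0 : (0 : ℝ) ≤ g := by positivity
  have ht0 : (0 : ℝ) < t := by linarith
  have htg : (g : ℝ) < t := by linarith
  have hcast : ((t - g : ℕ) : ℝ) = (t : ℝ) - g := by
    rw [Nat.cast_sub (by exact_mod_cast htg.le)]
  have hval : ∀ i, ev t (sf g (hS s i)) = ev ((t - g : ℕ) : ℝ) (hS s i) := by
    intro i
    have h1 := ou_shift hC (hsz i) g (t := ((t : ℝ) : ℂ)) (by
      rw [Complex.norm_real, Real.norm_of_nonneg ht0.le]
      exact h)
    have h2 : (((t : ℝ) : ℂ)) - (g : ℂ) = ((((t - g : ℕ) : ℝ)) : ℂ) := by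
      rw [hcast]
      push_cast
      ring
    rw [h2, ou_ev, ou_ev] at h1
    exact_mod_cast h1
  have hsub : ∀ i, Cv (t : ℝ) (sf g (hS s i)) := fun i => cx_sf_cv hC (hsz i) g h
  have hlg : Cv (t : ℝ) (lg g) := lg_cv htg
  have hlog : Real.log ((t - g : ℕ) : ℝ) = Real.log t + Real.log (1 - g / t) := by
    rw [hcast, ← Real.log_mul ht0.ne' (by
      have : (g : ℝ) / t < 1 := (div_lt_one ht0).2 htg
      linarith)]
    congr 1
    field_simp
  have ev_neg' : ∀ f : ℚ⟦X⟧, ev (t : ℝ) (-f) = -ev (t : ℝ) f := by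
    intro f
    unfold ev
    rw [← tsum_neg]
    refine tsum_congr fun m => ?_
    rw [map_neg]
    push_cast
    ring
  have v0 : vJ s t g 0 = ((ev ((t - g : ℕ) : ℝ) (hS s 0) : ℝ) : ℂ) := by
    show ((ev (t : ℝ) (sf g (hS s 0)) : ℝ) : ℂ) = _
    rw [hval]
  have v1 : vJ s t g 1 = ((ev ((t - g : ℕ) : ℝ) (hS s 2) : ℝ) : ℂ) := by
    show ((ev (t : ℝ) (sf g (hS s 2)) : ℝ) : ℂ) = _
    rw [hval]
  have v2 : vJ s t g 2 = ((-(ev ((t - g : ℕ) : ℝ) (hS s 1) - ev ((t - g : ℕ) : ℝ) (hS s 0) * Real.log (1 - g / t)) : ℝ) : ℂ) := by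
    show ((ev (t : ℝ) (-(sf g (hS s 1) - sf g (hS s 0) * lg g)) : ℝ) : ℂ) = _
    rw [ev_neg', sub_eq_add_neg, Cv.ev_add ht0 (hsub 1) (by
      have h1 := (hsub 0).mul ht0 hlg
      unfold Cv at h1 ⊢
      simpa only [map_neg, Rat.cast_neg, abs_neg] using h1), ev_neg', Cv.ev_mul ht0 (hsub 0) hlg, ev_lg htg, hval, hval]
    rfl
  have hq : ∀ j, pS s ((t - g : ℕ) : ℝ) j = MvPolynomial.aeval (p1 (hS s) ((t - g : ℕ) : ℝ)) (qS s j) := fun _ => rfl
  set f : ℝ := ev ((t - g : ℕ) : ℝ) (hS s 0) with hf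
  set G : ℝ := ev ((t - g : ℕ) : ℝ) (hS s 1) with hG
  set f1 : ℝ := ev ((t - g : ℕ) : ℝ) (hS s 2) with hf1
  have a0 : MvPolynomial.aeval (p1 (hS s) ((t - g : ℕ) : ℝ)) (qJ 0) = tpi * ((f : ℂ) * f) := by
    show MvPolynomial.aeval _ (MvPolynomial.C tpi * (MvPolynomial.X (some 0) * MvPolynomial.X (some 0))) = _
    rw [map_mul, map_mul, MvPolynomial.aeval_X, MvPolynomial.aeval_C]
    rfl
  have a1 : MvPolynomial.aeval (p1 (hS s) ((t - g : ℕ) : ℝ)) (qJ 1) =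
      (f : ℂ) * ((G : ℂ) - ((Real.log ((t - g : ℕ) : ℝ) : ℝ) : ℂ) * f) := by
    show MvPolynomial.aeval _ (MvPolynomial.X (some 0) * (MvPolynomial.X (some 1) - MvPolynomial.X none * MvPolynomial.X (some 0))) = _
    rw [map_mul, map_sub, map_mul, MvPolynomial.aeval_X, MvPolynomial.aeval_X, MvPolynomial.aeval_X]
    rfl
  have a2 : MvPolynomial.aeval (p1 (hS s) ((t - g : ℕ) : ℝ)) (qJ 2) = tpi * ((f : ℂ) * f1) := by
    show MvPolynomial.aeval _ (MvPolynomial.C tpi * (MvPolynomial.X (some 0) * MvPolynomial.X (some 2))) = _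
    rw [map_mul, map_mul, MvPolynomial.aeval_X, MvPolynomial.aeval_X, MvPolynomial.aeval_C]
    rfl
  have hlogC : ((Real.log ((t - g : ℕ) : ℝ) : ℝ) : ℂ) = ((Real.log t : ℝ) : ℂ) + ((Real.log (1 - g / t) : ℝ) : ℂ) := by
    rw [hlog]
    push_cast
    rfl
  funext j
  rw [hq]
  cases s
  · fin_cases j
    · show MvPolynomial.aeval _ (qJ 0) = tpi * vJ false t g 0 ^ 2
      rw [a0, v0]
      ring
    · show MvPolynomial.aeval _ (qJ 1 + MvPolynomial.C (1 / 2) * qJ 0) =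
        vJ false t g 0 * (-vJ false t g 2 - ((Real.log t : ℝ) : ℂ) * vJ false t g 0) + (if false = true then 0 else 1 / 2) * (tpi * vJ false t g 0 ^ 2)
      have h2 : (algebraMap ℂ ℂ) (1 / 2) = 1 / 2 := rfl
      rw [map_add, map_mul, MvPolynomial.aeval_C, h2, a0, a1, v0, v2, hlogC, if_neg Bool.false_ne_true]
      push_cast
      ring
    · show MvPolynomial.aeval _ (qJ 2) = tpi * (vJ false t g 0 * vJ false t g 1)
      rw [a2, v0, v1]
  · fin_cases j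
    · show MvPolynomial.aeval _ (qJ 0) = tpi * vJ true t g 0 ^ 2
      rw [a0, v0]
      ring
    · show MvPolynomial.aeval _ (qJ 1) =
        vJ true t g 0 * (-vJ true t g 2 - ((Real.log t : ℝ) : ℂ) * vJ true t g 0) + (if true = true then 0 else 1 / 2) * (tpi * vJ true t g 0 ^ 2)
      rw [a1, v0, v2, hlogC, if_pos rfl]
      push_cast
      ring
    · show MvPolynomial.aeval _ (qJ 2) = tpi * (vJ true t g 0 * vJ true t g 1)
      rw [a2, v0, v1]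

end Pool.Agent.Y120.K
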