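import Pool.Agent.Y120.K.Pre

/-!
# Windows of integral modular invariants, all distinct integers, one sign
-/

set_option autoImplicit false

open PowerSeries Pool.Agent.Y113 Pool.Agent.Y120.GF Pool.Agent.Y120.GH Pool.Agent.Y120.J Pool.Agent.Y120.R
open Pool.Agent.TH21.MS (jj)

namespace Pool.Agent.Y120.K

lemma size_hS (s : Bool) : ∃ C : ℝ, 0 ≤ C ∧ ∀ i m, |((coeff m (hS s i) : ℚ) : ℝ)| ≤ C ^ (m + 1) := by
  obtain ⟨hF, hG⟩ := hsd
  have hF1 : SDc F1 := SDc.X.mul hF.deriv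
  have hG1 : SDc G1 := (SDc.X.mul hG.deriv).add hF
  have hall : ∀ i, SDc (hJ i) := by
    intro i
    fin_cases i
    · exact hF
    · exact hG
    · exact hF1
    · exact hG1
  obtain ⟨C, hC, hs, -⟩ := Pool.Agent.Y119.HY.SDc.unif (y := hJ) hall
  refine ⟨C, by linarith, fun i m => ?_⟩
  cases s
  · have h1 := hs i m
    have h2 : |((coeff m (hS false i) : ℚ) : ℝ)| = |((coeff m (hJ i) : ℚ) : ℝ)| := by
      have h3 : hS false i = PowerSeries.rescale (-1 : ℚ) (hJ i) := rfl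
      rw [h3, PowerSeries.coeff_rescale]
      push_cast
      rw [abs_mul, abs_pow, abs_neg, abs_one, one_pow, one_mul]
    rw [h2]
    exact h1
  · exact hs i m

section
variable {K : IntermediateField ℚ ℂ} {q k : ℕ}

/-- the index type of the variables -/
abbrev Vr (q k : ℕ) : Type := (Fin 1 ⊕ Option (Fin q)) ⊕ Fin k × Fin 3

/-- the period functions as polynomials -/
noncomputable def Zp (K : IntermediateField ℚ ℂ) (q : ℕ) {k : ℕ} (s : Bool) (j : Fin k) : Fin 3 → MvPolynomial (Vr q k) K :=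
  ![MvPolynomial.X (Sum.inl (Sum.inl 0)) * MvPolynomial.X (Sum.inr (j, 0)) ^ 2,
    MvPolynomial.X (Sum.inr (j, 0)) * (-MvPolynomial.X (Sum.inr (j, 2)) -
      MvPolynomial.X (Sum.inl (Sum.inr none)) * MvPolynomial.X (Sum.inr (j, 0))) +
      MvPolynomial.C (if s then 0 else 1 / 2) * (MvPolynomial.X (Sum.inl (Sum.inl 0)) * MvPolynomial.X (Sum.inr (j, 0)) ^ 2),
    MvPolynomial.X (Sum.inl (Sum.inl 0)) * (MvPolynomial.X (Sum.inr (j, 0)) * MvPolynomial.X (Sum.inr (j, 1)))]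

lemma dX {σ R : Type} [CommRing R] [Nontrivial R] (i : σ) : (MvPolynomial.X i : MvPolynomial σ R).totalDegree ≤ 1 := by
  rw [MvPolynomial.totalDegree_X]

lemma dmul {σ R : Type} [CommRing R] {p r : MvPolynomial σ R} {a b : ℕ} (hp : p.totalDegree ≤ a) (hr : r.totalDegree ≤ b) :
    (p * r).totalDegree ≤ a + b := (MvPolynomial.totalDegree_mul _ _).trans (Nat.add_le_add hp hr)

lemma dadd {σ R : Type} [CommRing R] {p r : MvPolynomial σ R} {a : ℕ} (hp : p.totalDegree ≤ a) (hr : r.totalDegree ≤ a) :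
    (p + r).totalDegree ≤ a := (MvPolynomial.totalDegree_add _ _).trans (max_le hp hr)

lemma dsub {σ R : Type} [CommRing R] {p r : MvPolynomial σ R} {a : ℕ} (hp : p.totalDegree ≤ a) (hr : r.totalDegree ≤ a) :
    (p - r).totalDegree ≤ a := (MvPolynomial.totalDegree_sub _ _).trans (max_le hp hr)

lemma Zp_deg (s : Bool) (j : Fin k) (i : Fin 3) : (Zp K q s j i).totalDegree ≤ 3 := by
  have h2 : ∀ v : Vr q k, (MvPolynomial.X v ^ 2 : MvPolynomial (Vr q k) K).totalDegree ≤ 2 := fun v =>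
    (MvPolynomial.totalDegree_pow _ _).trans (by
      have := dX (R := K) v
      omega)
  have h3 : (MvPolynomial.X (Sum.inl (Sum.inl 0)) * MvPolynomial.X (Sum.inr (j, 0)) ^ 2 : MvPolynomial (Vr q k) K).totalDegree ≤ 3 :=
    dmul (dX _) (h2 _)
  fin_cases i
  · exact h3
  · refine dadd ?_ ?_
    · refine dmul (a := 1) (b := 2) (dX _) (dsub ?_ (dmul (a := 1) (b := 1) (dX _) (dX _)))
      rw [MvPolynomial.totalDegree_neg]
      exact (dX _).trans (by norm_num)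
    · refine dmul (a := 0) (b := 3) ?_ h3
      rw [MvPolynomial.totalDegree_C]
  · exact dmul (a := 1) (b := 2) (dX _) (dmul (a := 1) (b := 1) (dX _) (dX _))

/-- the point -/
noncomputable def pt (ℓ : ℂ) (w : Fin q → ℂ) (y : Fin k × Fin 3 → ℂ) : Vr q k → ℂ :=
  Sum.elim (Sum.elim (fun _ : Fin 1 => tpi) fun o : Option (Fin q) => o.elim ℓ w) y

lemma Zp_eval (s : Bool) (j : Fin k) (ℓ : ℂ) (w : Fin q → ℂ) (y : Fin k × Fin 3 → ℂ) :
    (fun i => MvPolynomial.aeval (pt ℓ w y) (Zp K q s j i)) = Zo (if s then 0 else 1 / 2) ℓ fun i => y (j, i) := by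
  have hC : MvPolynomial.aeval (pt ℓ w y) (MvPolynomial.C (if s then 0 else 1 / 2) : MvPolynomial (Vr q k) K) =
      (if s then 0 else 1 / 2 : ℂ) := by
    rw [MvPolynomial.aeval_C]
    cases s
    · simp only [Bool.false_eq_true, if_false]
      rw [map_div₀, map_one, map_ofNat]
    · simp
  funext i
  fin_cases i
  · show MvPolynomial.aeval (pt ℓ w y) (MvPolynomial.X (Sum.inl (Sum.inl 0)) * MvPolynomial.X (Sum.inr (j, 0)) ^ 2) =
      tpi * y (j, 0) ^ 2
    rw [map_mul, map_pow, MvPolynomial.aeval_X, MvPolynomial.aeval_X]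
    rfl
  · show MvPolynomial.aeval (pt ℓ w y) (MvPolynomial.X (Sum.inr (j, 0)) * (-MvPolynomial.X (Sum.inr (j, 2)) -
      MvPolynomial.X (Sum.inl (Sum.inr none)) * MvPolynomial.X (Sum.inr (j, 0))) +
      MvPolynomial.C (if s then 0 else 1 / 2) * (MvPolynomial.X (Sum.inl (Sum.inl 0)) * MvPolynomial.X (Sum.inr (j, 0)) ^ 2)) =
      y (j, 0) * (-y (j, 2) - ℓ * y (j, 0)) + (if s then 0 else 1 / 2) * (tpi * y (j, 0) ^ 2)
    rw [map_add, map_mul, map_sub, map_neg, map_mul, map_mul, map_mul, map_pow, hC, MvPolynomial.aeval_X,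
      MvPolynomial.aeval_X, MvPolynomial.aeval_X, MvPolynomial.aeval_X]
    rfl
  · show MvPolynomial.aeval (pt ℓ w y) (MvPolynomial.X (Sum.inl (Sum.inl 0)) *
      (MvPolynomial.X (Sum.inr (j, 0)) * MvPolynomial.X (Sum.inr (j, 1)))) = tpi * (y (j, 0) * y (j, 1))
    rw [map_mul, map_mul, MvPolynomial.aeval_X, MvPolynomial.aeval_X, MvPolynomial.aeval_X]
    rfl

end

/-- the constants `2 π i` and `w` -/
noncomputable def wo {q : ℕ} (w : Fin q → ℂ) (o : Option (Fin q)) : ℂ := o.elim tpi w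

/-- windows for integers of one sign: all distinct integers -/
theorem winK {s : Bool} (hn : T_NRJ s) (q k D δ : ℕ) : ∃ E : ℕ, ∀ H t : ℕ, (H + 2) ^ E ≤ t → ∀ w : Fin q → ℂ,
    ∃ S : Finset ℕ, S.card ≤ q + 2 ∧ ∀ g : Fin k → ℕ, Function.Injective g → (∀ i, 1 ≤ g i ∧ g i ≤ H ∧ g i ∉ S) →
    ∀ z : Fin k → UpperHalfPlane, (∀ i, jj (z i) = ((si s * ((t - g i : ℕ) : ℤ) : ℤ) : ℂ)) →
    ∀ K : IntermediateField ℚ ℂ, FiniteDimensional ℚ K → Module.finrank ℚ K ≤ D →
    ∀ P : MvPolynomial (Option (Fin q) ⊕ Fin k × Fin 3) K, P.totalDegree ≤ δ →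
    MvPolynomial.aeval (Sum.elim (wo w) fun v : Fin k × Fin 3 => jt (z v.1) v.2) P = 0 →
    ∀ u, MvPolynomial.aeval (Sum.elim (wo w) u) P = 0 := by
  classical
  obtain ⟨T, hT⟩ := all_PT s
  obtain ⟨w₀, hw₀⟩ := exists_nat_ge T
  obtain ⟨C, hC, hsz⟩ := size_hS s
  obtain ⟨c₀, hc₀⟩ := exists_nat_gt C
  obtain ⟨E, hE⟩ := absFree (υ₁ := Option (Fin q)) hn (fun _ : Fin 1 => tpi) Finset.univ (fun j => by
    refine isAlgebraic_algebraMap (⟨tpi, Algebra.subset_adjoin ⟨0, by simp, rfl⟩⟩ :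
      Algebra.adjoin ℚ ((fun _ : Fin 1 => tpi) '' ((Finset.univ : Finset (Fin 1)) : Set (Fin 1))))) k D
    (Fintype.card (Option (Fin q)) * (δ * 24) + Fintype.card (Fin k × Fin 3) * (δ * 24))
  refine ⟨E + (w₀ + c₀ + 2), fun H t ht w => ?_⟩
  have h2 : 1 ≤ H + 2 := by omega
  have hEt : (H + 2) ^ E ≤ t := (Nat.pow_le_pow_right h2 (by omega)).trans ht
  have hbig : ∀ g, g ≤ H → w₀ + c₀ + g + 1 ≤ t := by
    intro g hg
    have e0 : (H + 2) ^ (w₀ + c₀ + 2) ≤ t := (Nat.pow_le_pow_right h2 (by omega)).trans ht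
    have e1 : 2 ^ (w₀ + c₀ + 1) * (H + 2) ≤ (H + 2) ^ (w₀ + c₀ + 1) * (H + 2) :=
      Nat.mul_le_mul_right _ (Nat.pow_le_pow_left (by omega) _)
    have e2 : (H + 2) ^ (w₀ + c₀ + 1) * (H + 2) = (H + 2) ^ (w₀ + c₀ + 2) := by rw [← pow_succ]
    have e3 : w₀ + c₀ + 1 < 2 ^ (w₀ + c₀ + 1) := Nat.lt_two_pow_self
    have e4 : 2 ^ (w₀ + c₀ + 1) + H ≤ 2 ^ (w₀ + c₀ + 1) * (H + 2) := by nlinarith [Nat.one_le_two_pow (n := w₀ + c₀ + 1)]
    omega
  obtain ⟨S, hS, hwin⟩ := hE H t hEt fun o : Option (Fin q) => o.elim ((Real.log t : ℝ) : ℂ) w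
  refine ⟨S, ?_, ?_⟩
  · refine hS.trans ?_
    rw [Finset.card_univ, Fintype.card_fin, Fintype.card_option, Fintype.card_fin]
    omega
  intro g hg hgS z hz K hK hKD P hPδ hP u
  -- the points
  have hti0 : ∀ i, (si s * ((t - g i : ℕ) : ℤ)) ≠ 0 := by
    intro i
    have h3 := hbig _ (hgS i).2.1
    have h4 : (((t - g i : ℕ) : ℤ)) ≠ 0 := by omega
    refine mul_ne_zero ?_ h4
    unfold si
    split_ifs <;> norm_num
  have hpt := fun i => hT ((t - g i : ℕ) : ℝ) (z i) (hw₀.trans (by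
    have := hbig _ (hgS i).2.1
    exact_mod_cast (by omega))) (by rw [hz i]; push_cast; rfl)
  choose γ ω hγ hZ0 hω hd1 hd2 using hpt
  have hpts : ∀ i, (∀ j, e2 (pS s ((t - g i : ℕ) : ℝ)) (mm (γ i 1 0) (γ i 1 1) j) ≠ 0) ∧
      ∀ j, jt (z i) j = e2 (pS s ((t - g i : ℕ) : ℝ)) (nn (γ i 0 0) (γ i 0 1) (γ i 1 0) (γ i 1 1)
        (si s * ((t - g i : ℕ) : ℤ)) j) / e2 (pS s ((t - g i : ℕ) : ℝ)) (mm (γ i 1 0) (γ i 1 1) j) := fun i =>
    ptsS (t := si s * ((t - g i : ℕ) : ℤ)) (hZ0 i) (hω i) (by rw [hd1 i]; push_cast; ring)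
      (by rw [hd2 i]; push_cast; ring) (γ i) (hγ i)
  have hpS : ∀ i, pS s ((t - g i : ℕ) : ℝ) = Zo (if s then 0 else 1 / 2) ((Real.log t : ℝ) : ℂ) (vJ s t (g i)) := by
    intro i
    refine pS_eq hC hsz ?_
    have h3 := hbig _ (hgS i).2.1
    have h4 : (g i : ℝ) + c₀ ≤ t := by exact_mod_cast (by omega)
    linarith
  -- the polynomial
  set W : Option (Fin q) → MvPolynomial (Vr q k) K := fun o => MvPolynomial.X (Sum.inl (o.elim (Sum.inl 0)
    fun l => Sum.inr (some l))) with hW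
  set Np : Fin k × Fin 3 → MvPolynomial (Vr q k) K := fun v => MvPolynomial.aeval (Zp K q s v.1)
    (MvPolynomial.map (Int.castRingHom K) (nn (γ v.1 0 0) (γ v.1 0 1) (γ v.1 1 0) (γ v.1 1 1)
      (si s * ((t - g v.1 : ℕ) : ℤ)) v.2)) with hNp
  set Mp : Fin k × Fin 3 → MvPolynomial (Vr q k) K := fun v => MvPolynomial.aeval (Zp K q s v.1)
    (MvPolynomial.map (Int.castRingHom K) (mm (γ v.1 1 0) (γ v.1 1 1) v.2)) with hMp
  have hNe : ∀ (y : Fin k × Fin 3 → ℂ) v, MvPolynomial.aeval (pt ((Real.log t : ℝ) : ℂ) w y) (Np v) =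
      e2 (Zo (if s then 0 else 1 / 2) ((Real.log t : ℝ) : ℂ) fun i => y (v.1, i))
        (nn (γ v.1 0 0) (γ v.1 0 1) (γ v.1 1 0) (γ v.1 1 1) (si s * ((t - g v.1 : ℕ) : ℤ)) v.2) := by
    intro y v
    rw [hNp]
    show MvPolynomial.aeval _ (MvPolynomial.aeval _ (MvPolynomial.map _ _)) = _
    rw [aeval_int, Zp_eval]
    rfl
  have hMe : ∀ (y : Fin k × Fin 3 → ℂ) v, MvPolynomial.aeval (pt ((Real.log t : ℝ) : ℂ) w y) (Mp v) =
      e2 (Zo (if s then 0 else 1 / 2) ((Real.log t : ℝ) : ℂ) fun i => y (v.1, i)) (mm (γ v.1 1 0) (γ v.1 1 1) v.2) := by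
    intro y v
    rw [hMp]
    show MvPolynomial.aeval _ (MvPolynomial.aeval _ (MvPolynomial.map _ _)) = _
    rw [aeval_int, Zp_eval]
    rfl
  have hWe : ∀ y : Fin k × Fin 3 → ℂ, (fun a => MvPolynomial.aeval (pt ((Real.log t : ℝ) : ℂ) w y) (W a)) = wo w := by
    intro y
    funext a
    rw [hW]
    show MvPolynomial.aeval _ (MvPolynomial.X _) = _
    rw [MvPolynomial.aeval_X]
    rcases a with _ | a <;> rfl
  have hdeg : (clr δ W Np Mp P).totalDegree ≤
      Fintype.card (Option (Fin q)) * (δ * 24) + Fintype.card (Fin k × Fin 3) * (δ * 24) := by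
    refine clr_deg hPδ (fun a => (dX _).trans (by norm_num)) (fun v => ?_) fun v => ?_
    · exact (aeval_int_deg (nn_deg _ _ _ _ _ _) fun i => Zp_deg s v.1 i).trans (by norm_num)
    · exact (aeval_int_deg (mm_deg _ _ _) fun i => Zp_deg s v.1 i).trans (by norm_num)
  -- it vanishes at the values
  have hzero : MvPolynomial.aeval (pt ((Real.log t : ℝ) : ℂ) w fun a : Fin k × Fin 3 => vJ s t (g a.1) a.2)
      (clr δ W Np Mp P) = 0 := by
    rw [clr_eval hPδ, hWe]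
    · have e1 : (fun b : Fin k × Fin 3 => MvPolynomial.aeval (pt ((Real.log t : ℝ) : ℂ) w
          fun a : Fin k × Fin 3 => vJ s t (g a.1) a.2) (Np b) / MvPolynomial.aeval (pt ((Real.log t : ℝ) : ℂ) w
          fun a : Fin k × Fin 3 => vJ s t (g a.1) a.2) (Mp b)) = fun v => jt (z v.1) v.2 := by
        funext v
        rw [hNe, hMe, (hpts v.1).2 v.2, hpS v.1]
      rw [e1, hP, mul_zero]
    · intro b
      rw [hMe]
      have := (hpts b.1).1 b.2
      rwa [hpS b.1] at this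
  have hall : ∀ y : Fin k × Fin 3 → ℂ, MvPolynomial.aeval (pt ((Real.log t : ℝ) : ℂ) w y) (clr δ W Np Mp P) = 0 :=
    fun y => hwin g hg hgS K hK hKD _ hdeg hzero y
  -- the substitution of the constants
  let p : MvPolynomial (Fin k × Fin 3) ℂ := MvPolynomial.eval₂Hom (MvPolynomial.C.comp (algebraMap K ℂ))
    (Sum.elim (fun a => MvPolynomial.C (wo w a)) MvPolynomial.X) P
  have hp : ∀ u, MvPolynomial.eval u p = MvPolynomial.aeval (Sum.elim (wo w) u) P := by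
    intro u
    show MvPolynomial.eval u (MvPolynomial.eval₂Hom _ _ P) = _
    have e1 : (MvPolynomial.eval u).comp (MvPolynomial.eval₂Hom (MvPolynomial.C.comp (algebraMap K ℂ))
        (Sum.elim (fun a => MvPolynomial.C (wo w a)) MvPolynomial.X)) =
        ((MvPolynomial.aeval (Sum.elim (wo w) u) : MvPolynomial (Option (Fin q) ⊕ Fin k × Fin 3) K →ₐ[K] ℂ) :
          MvPolynomial (Option (Fin q) ⊕ Fin k × Fin 3) K →+* ℂ) := by
      refine MvPolynomial.ringHom_ext (fun r => ?_) fun i => ?_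
      · simp
      · rcases i with a | b
        · simp
        · simp
    exact RingHom.congr_fun e1 P
  have hp0 : p = 0 := by
    refine dense_zero (a := fun j => γ j 0 0) (c := fun j => γ j 1 0) (fun j => ?_) fun u hu => ?_
    · by_contra hcon
      push Not at hcon
      have h1 := (γ j).det_coe
      rw [Matrix.det_fin_two, hcon.1, hcon.2] at h1
      simp at h1
    · rw [hp]
      have hpre : ∀ j, ∃ v : Fin 3 → ℂ,
          (∀ i, e2 (Zo (if s then 0 else 1 / 2) ((Real.log t : ℝ) : ℂ) v) (mm (γ j 1 0) (γ j 1 1) i) ≠ 0) ∧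
          ∀ i, u (j, i) = e2 (Zo (if s then 0 else 1 / 2) ((Real.log t : ℝ) : ℂ) v)
            (nn (γ j 0 0) (γ j 0 1) (γ j 1 0) (γ j 1 1) (si s * ((t - g j : ℕ) : ℤ)) i) /
            e2 (Zo (if s then 0 else 1 / 2) ((Real.log t : ℝ) : ℂ) v) (mm (γ j 1 0) (γ j 1 1) i) := by
        intro j
        have hdet : (γ j 0 0) * (γ j 1 1) - (γ j 0 1) * (γ j 1 0) = 1 := by
          have h1 := (γ j).det_coe
          rw [Matrix.det_fin_two] at h1
          exact h1
        obtain ⟨Z, hZ, h3, h4⟩ := exists_Z (u := fun i => u (j, i)) hdet (hti0 j) (hu j).1 (hu j).2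
        obtain ⟨v, hv⟩ := exists_Zo (if s then 0 else 1 / 2) ((Real.log t : ℝ) : ℂ) hZ
        exact ⟨v, by rw [hv]; exact h3, by rw [hv]; exact h4⟩
      choose v hv1 hv2 using hpre
      have h5 := hall fun a => v a.1 a.2
      rw [clr_eval hPδ _ fun b => by rw [hMe]; exact hv1 b.1 b.2, hWe] at h5
      have e1 : (fun b : Fin k × Fin 3 => MvPolynomial.aeval (pt ((Real.log t : ℝ) : ℂ) w
          fun a : Fin k × Fin 3 => v a.1 a.2) (Np b) / MvPolynomial.aeval (pt ((Real.log t : ℝ) : ℂ) w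
          fun a : Fin k × Fin 3 => v a.1 a.2) (Mp b)) = u := by
        funext b
        rw [hNe, hMe]
        exact (hv2 b.1 b.2).symm
      rw [e1] at h5
      refine (mul_eq_zero.1 h5).resolve_left ?_
      refine Finset.prod_ne_zero_iff.2 fun b _ => pow_ne_zero _ ?_
      rw [hMe]
      exact hv1 b.1 b.2
  rw [← hp u, hp0, map_zero]

end Pool.Agent.Y120.K
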