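import Pool.Agent.Y120.K.WinK

/-!
# Windows of integral modular invariants, all distinct integers
-/

set_option autoImplicit false

open Pool.Agent.Y120.J
open Pool.Agent.TH21.MS (jj)

namespace Pool.Agent.Y120.K

/-- windows in terms of the integers -/
theorem winZ2 (hn : ∀ s, T_NRJ s) (q k D δ : ℕ) : ∃ E : ℕ, ∀ N H : ℕ, (H + 2) ^ E ≤ N → ∀ (w : Fin q → ℂ) (s : Bool),
    ∃ S : Finset ℤ, S.card ≤ q + 2 ∧ ∀ n : Fin k → ℤ, Function.Injective n →
    (∀ i, (N : ℤ) ≤ si s * n i ∧ si s * n i ≤ N + H ∧ n i ∉ S) →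
    ∀ z : Fin k → UpperHalfPlane, (∀ i, jj (z i) = n i) →
    ∀ K : IntermediateField ℚ ℂ, FiniteDimensional ℚ K → Module.finrank ℚ K ≤ D →
    ∀ P : MvPolynomial (Option (Fin q) ⊕ Fin k × Fin 3) K, P.totalDegree ≤ δ →
    MvPolynomial.aeval (Sum.elim (wo w) fun v : Fin k × Fin 3 => jt (z v.1) v.2) P = 0 →
    ∀ u, MvPolynomial.aeval (Sum.elim (wo w) u) P = 0 := by
  classical
  have h0 := fun s => winK (hn s) q k D δ
  choose E₀ hE₀ using h0
  refine ⟨2 * (E₀ true + E₀ false), fun N H hN w s => ?_⟩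
  have hE : (H + 1 + 2) ^ E₀ s ≤ N + H + 1 := by
    have h1 : H + 1 + 2 ≤ (H + 2) ^ 2 := by nlinarith
    have h2 : (H + 1 + 2) ^ E₀ s ≤ (H + 2) ^ (2 * E₀ s) := by
      rw [pow_mul]
      exact Nat.pow_le_pow_left h1 _
    have h3 : (H + 2) ^ (2 * E₀ s) ≤ (H + 2) ^ (2 * (E₀ true + E₀ false)) := by
      refine Nat.pow_le_pow_right (by omega) ?_
      cases s <;> omega
    omega
  obtain ⟨S, hS, hwin⟩ := hE₀ s (H + 1) (N + H + 1) hE w
  have hsi : si s * si s = 1 := by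
    unfold si
    split_ifs <;> norm_num
  refine ⟨S.image fun g : ℕ => si s * (((N + H + 1 : ℕ) : ℤ) - (g : ℤ)), Finset.card_image_le.trans hS, ?_⟩
  intro n hn hnS z hz K hK hKD P hP hP0
  set g : Fin k → ℕ := fun i => (((N + H + 1 : ℕ) : ℤ) - si s * n i).toNat with hg
  have hgi : ∀ i, (g i : ℤ) = (N + H + 1 : ℕ) - si s * n i := by
    intro i
    have := (hnS i).2.1
    rw [hg]
    show ((((N + H + 1 : ℕ) : ℤ) - si s * n i).toNat : ℤ) = _
    rw [Int.toNat_of_nonneg]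
    push_cast
    linarith
  have hni : ∀ i, n i = si s * ((N + H + 1 : ℕ) - (g i : ℤ)) := by
    intro i
    rw [hgi i]
    linear_combination (-(n i)) * hsi
  have hinj : Function.Injective g := by
    intro i j hij
    apply hn
    rw [hni i, hni j, hij]
  have hg1 : ∀ i, 1 ≤ g i := by
    intro i
    have h1 := hgi i
    have h2 := (hnS i).2.1
    push_cast at h1
    have h3 : (1 : ℤ) ≤ g i := by linarith
    exact_mod_cast h3
  have hgH : ∀ i, g i ≤ H + 1 := by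
    intro i
    have h1 := hgi i
    have h2 := (hnS i).1
    push_cast at h1
    have h3 : (g i : ℤ) ≤ H + 1 := by linarith
    exact_mod_cast h3
  refine hwin g hinj (fun i => ⟨hg1 i, hgH i, fun hmem => ?_⟩) z (fun i => ?_) K hK hKD P hP hP0
  · exact (hnS i).2.2 (Finset.mem_image.2 ⟨g i, hmem, (hni i).symm⟩)
  · rw [hz i, hni i]
    have h1 : ((N + H + 1 - g i : ℕ) : ℤ) = ((N + H + 1 : ℕ) : ℤ) - (g i : ℤ) :=
      Nat.cast_sub ((hgH i).trans (by omega))
    rw [h1]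

end Pool.Agent.Y120.K
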